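import Pool.Agent.X94.BdB

/-!
Problem MP_2c59d0_an: for every `γ > 0` and `m ≥ 1`, every positive solution of
`x_{n+1} = γ + x_{n-2m}/x_{n-1}` is bounded.
-/

namespace Pool.Agent.Results.MP_2c59d0_an.AlwaysBounded

/-- A solution of `x_{n+1} = γ + x_{n-2m}/x_{n-1}` (`n = 0,1,2,…`) with positive initial values
`x_{-2m}, …, x_0`. The sequence is indexed by `ℕ` with `x k` standing for `x_{k-2m}`: the initial
values are `x 0, …, x (2m)`. -/
def IsSolution (γ : ℝ) (m : ℕ) (x : ℕ → ℝ) : Prop :=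
  (∀ i, i ≤ 2 * m → 0 < x i) ∧
    ∀ n, x (n + 2 * m + 1) = γ + x n / x (n + 2 * m - 1)

/-- Every solution is bounded. -/
theorem result : ∀ γ : ℝ, 0 < γ → ∀ m : ℕ, 1 ≤ m → ∀ x : ℕ → ℝ, IsSolution γ m x →
    ∃ M : ℝ, ∀ n, x n ≤ M := by
  intro γ hγ m hm x hx
  obtain ⟨h0, hrec⟩ := hx
  have hpos : ∀ n, 0 < x n := by
    intro n
    induction n using Nat.strong_induction_on with
    | _ n ih =>
      by_cases hn : n ≤ 2 * m
      · exact h0 n hn
      · obtain ⟨k, hk⟩ : ∃ k, n = k + 2 * m + 1 := ⟨n - (2 * m + 1), by omega⟩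
        rw [hk, hrec]
        have := div_pos (ih k (by omega)) (ih (k + 2 * m - 1) (by omega))
        linarith
  refine Pool.Agent.X94.BdB.bounded hγ hm (x := x) ⟨hpos, fun n => ?_⟩
  have := hrec n
  rw [show n + (2 * m + 1) = n + 2 * m + 1 by ring,
    show n + (2 * m - 1) = n + 2 * m - 1 by omega]
  exact this

end Pool.Agent.Results.MP_2c59d0_an.AlwaysBounded
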